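import Pool.Agent.MP_0eb56c_an.H74.Dense

open MeasureTheory

namespace Pool.Agent.Results.MP_0eb56c_an.HilbertGenerated

universe u

/-- For every real `p > 2` and every finite measure `μ` on any measurable space, some real Hilbert
space admits a bounded operator into `L^p(μ)` with dense range. -/
theorem result (p : ℝ) (_hp : 2 < p) [Fact (1 ≤ ENNReal.ofReal p)] (α : Type u)
    [MeasurableSpace α] (μ : Measure α) [IsFiniteMeasure μ] :
    ∃ (H : Type u) (_ : NormedAddCommGroup H) (_ : InnerProductSpace ℝ H) (_ : CompleteSpace H)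
      (T : H →L[ℝ] Lp ℝ (ENNReal.ofReal p) μ), closure (Set.range T) = Set.univ := by
  obtain ⟨J, T, hT⟩ :=
    Pool.Agent.MP_0eb56c_an.H74.hilbert_generated μ (ENNReal.ofReal p) ENNReal.ofReal_ne_top
  exact ⟨lp (fun _ : J => ℝ) 2, inferInstance, inferInstance, inferInstance, T, hT.closure_range⟩

end Pool.Agent.Results.MP_0eb56c_an.HilbertGenerated
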